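import Mathlib
import Pool.Agent.Q17.AM.Stm4
import Pool.Agent.Q17.AM.Nt

/-!
# Project AM (helper17), job BWR: the weight conjecture modulo `r`
-/

set_option autoImplicit false

open scoped Classical

namespace Pool.Agent.Q24.AM

open Pool.Agent.Q17.AM Pool.Agent.Q17.WR Pool.Agent.Q17.DC Pool.Agent.H254R3.IN

theorem finite_wc (G : Type) [Group G] [Finite G] (r : ℕ) [Fact r.Prime] : Finite (Wc G r) := by
  refine Nat.finite_of_card_ne_zero ?_
  rw [SemidirectProduct.card, Nat.card_fun, Nat.card_congr Multiplicative.toAdd, Nat.card_zmod]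
  have h1 : 0 < Nat.card G := Nat.card_pos
  have h2 : 0 < r := (Fact.out : r.Prime).pos
  positivity

theorem t_BWR : S_BLK → S_LLX → S_NWX → S_DZB → S_BWR := by
  intro hBLK hLLX hNWX hDZB p r _ _ hpr O hO hyp
  have key : ∀ j : ℕ, 1 ≤ j → ∀ (G : Type) [Group G] [Fintype G] (B : Set (G → ℂ)), IsBlock O B →
      (r : ℤ) ^ j ∣ (lB p B : ℤ) - (nW p O B : ℤ) := by
    intro j hj
    induction j, hj using Nat.le_induction with
    | base =>
      intro G _ _ B hB
      rw [pow_one]
      exact hyp G B hB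
    | succ j hj ih =>
      intro G _ _ B hB
      have hfin : Finite (Wc G r) := finite_wc G r
      let _ : Fintype (Wc G r) := Fintype.ofFinite _
      by_cases hP : Pos O B
      · exact step_int (c := (r : ℤ) ^ 2 - 1) hj ⟨r, by ring⟩ (hLLX G p r hpr B)
          (hNWX G p r hpr O hO B hB hP) (ih G B hB)
          (ih (Wc G r) (LX (r := r) B) (hBLK G p r hpr O hO B hB hP).1)
      · obtain ⟨h1, h2⟩ := hDZB G p O hO B hB hP
        rw [h1, h2, sub_self]
        exact dvd_zero _
  intro G _ _ B hB
  have h1 := zero_of_dvd (Fact.out : r.Prime).two_le (fun j hj => key j hj G B hB)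
  omega

end Pool.Agent.Q24.AM
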